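import Mathlib

/-! One-sided second moments from the first moment: functions on an interval. -/

set_option autoImplicit false

open MeasureTheory

namespace Pool.Agent.V1173.BS

theorem ii {f : ℝ → ℝ} {a b C : ℝ} (hf : Measurable f) (hC : ∀ y, |f y| ≤ C) :
    IntervalIntegrable f volume a b := by
  rw [intervalIntegrable_iff]
  refine Measure.integrableOn_of_bounded (M := C) (by
    rw [Set.uIoc]
    exact measure_Ioc_lt_top.ne) hf.aestronglyMeasurable ?_
  exact Filter.Eventually.of_forall fun y => by rw [Real.norm_eq_abs]; exact hC y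

/-- If `G` has integral zero over `[1, X]` and `∫ |G| ≥ 2 a X` then the positive part of `G` has `∫ ≥ a ^ 2 X`
for its square. -/
theorem onesided {X : ℝ} (hX : 1 ≤ X) {G : ℝ → ℝ} (hG : Measurable G) {C : ℝ} (hC : ∀ x, |G x| ≤ C)
    (h0 : ∫ x in (1 : ℝ)..X, G x = 0) {a : ℝ} (ha : 0 ≤ a)
    (h : X * (2 * a) ≤ ∫ x in (1 : ℝ)..X, |G x|) :
    X * a ^ 2 ≤ ∫ x in (1 : ℝ)..X, (max (G x) 0) ^ 2 := by
  have hC0 : 0 ≤ C := (abs_nonneg _).trans (hC 0)
  have i1 : IntervalIntegrable G volume 1 X := ii hG hC
  have i2 : IntervalIntegrable (fun x => |G x|) volume 1 X :=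
    ii (C := C) (continuous_abs.measurable.comp hG) fun x => by rw [abs_abs]; exact hC x
  have hm : Measurable (fun x => max (G x) 0) := hG.max measurable_const
  have hb : ∀ x, |max (G x) 0| ≤ C := fun x => by
    rw [abs_of_nonneg (le_max_right _ _)]
    exact max_le ((le_abs_self _).trans (hC x)) hC0
  have i3 : IntervalIntegrable (fun x => max (G x) 0) volume 1 X := ii hm hb
  have i4 : IntervalIntegrable (fun x => (max (G x) 0) ^ 2) volume 1 X :=
    ii (C := C ^ 2) (hm.pow_const 2) fun x => by
      rw [abs_of_nonneg (sq_nonneg _)]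
      exact pow_le_pow_left₀ (le_max_right _ _) ((le_abs_self _).trans (hb x)) 2
  have e1 : ∫ x in (1 : ℝ)..X, |G x| = 2 * ∫ x in (1 : ℝ)..X, max (G x) 0 := by
    have e2 : ∫ x in (1 : ℝ)..X, (|G x| + G x) = ∫ x in (1 : ℝ)..X, 2 * max (G x) 0 := by
      refine intervalIntegral.integral_congr fun x _ => ?_
      change |G x| + G x = 2 * max (G x) 0
      rcases le_total (G x) 0 with h1 | h1
      · rw [abs_of_nonpos h1, max_eq_right h1]; ring
      · rw [abs_of_nonneg h1, max_eq_left h1]; ring
    rw [intervalIntegral.integral_add i2 i1, h0, add_zero, intervalIntegral.integral_const_mul] at e2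
    exact e2
  have e3 : ∫ x in (1 : ℝ)..X, (2 * a * max (G x) 0 - a ^ 2) ≤ ∫ x in (1 : ℝ)..X, (max (G x) 0) ^ 2 := by
    refine intervalIntegral.integral_mono_on hX ((i3.const_mul _).sub intervalIntegrable_const) i4
      fun x _ => ?_
    nlinarith [sq_nonneg (max (G x) 0 - a)]
  rw [intervalIntegral.integral_sub (i3.const_mul _) intervalIntegrable_const,
    intervalIntegral.integral_const_mul, intervalIntegral.integral_const, smul_eq_mul] at e3
  rw [e1] at h
  have h3 : a * (X * a) ≤ a * ∫ x in (1 : ℝ)..X, max (G x) 0 := by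
    apply mul_le_mul_of_nonneg_left _ ha
    linarith
  nlinarith [sq_nonneg a]

end Pool.Agent.V1173.BS
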