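import Mathlib

/-! Deviations of both signs from the mean of a finite family: the finite combinatorics. -/

set_option autoImplicit false

open Finset

namespace Pool.Agent.V1173.BS

/-- One side: if the `g A` have sum zero and first absolute moment at least `V`, then many of them are at least `V / 4`
and the positive ones contribute to the second moment. -/
theorem side {ι : Type*} (S : Finset ι) (g : ι → ℝ) {D V : ℝ} (hD : 0 < D) (hV : 0 ≤ V)
    (hgb : ∀ A ∈ S, g A ≤ D) (hg0 : ∑ A ∈ S, g A = 0) (h : S.card * V ≤ ∑ A ∈ S, |g A|) :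
    S.card * (V / 4 / D) ≤ ((S.filter (fun A => V / 4 ≤ g A)).card : ℝ) ∧
      S.card * (V / 2) ^ 2 ≤ ∑ A ∈ S.filter (fun A => 0 ≤ g A), g A ^ 2 := by
  classical
  set P := ∑ A ∈ S.filter (fun A => 0 ≤ g A), g A with hP
  have h1 : ∑ A ∈ S, |g A| = 2 * P := by
    have h2 : ∑ A ∈ S, (|g A| + g A) = 2 * P := by
      rw [hP, mul_sum, sum_filter]
      refine sum_congr rfl fun A _ => ?_
      split_ifs with h3
      · rw [abs_of_nonneg h3]; ring
      · rw [abs_of_neg (not_le.1 h3)]; ring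
    rw [sum_add_distrib, hg0, add_zero] at h2
    exact h2
  have h2 : S.card * V ≤ 2 * P := h1 ▸ h
  have hc : (0 : ℝ) ≤ S.card := Nat.cast_nonneg _
  constructor
  · have h3 : P ≤ S.card * (V / 4) + D * ((S.filter (fun A => V / 4 ≤ g A)).card : ℝ) := by
      have h4 : P ≤ ∑ A ∈ S, (V / 4 + if V / 4 ≤ g A then D else 0) := by
        rw [hP, sum_filter]
        refine sum_le_sum fun A hA => ?_
        have h5 := hgb A hA
        split_ifs with h6 h7 h8
        · linarith
        · linarith [not_le.1 h7]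
        · linarith
        · linarith
      refine h4.trans (le_of_eq ?_)
      rw [sum_add_distrib, sum_const, nsmul_eq_mul, ← sum_filter, sum_const, nsmul_eq_mul]
      ring
    rw [← mul_div_assoc, div_le_iff₀ hD]
    linarith
  · have h3 := sq_sum_le_card_mul_sum_sq (s := S.filter (fun A => 0 ≤ g A)) (f := g)
    rw [← hP] at h3
    set R := ∑ A ∈ S.filter (fun A => 0 ≤ g A), g A ^ 2 with hR
    have hR0 : 0 ≤ R := sum_nonneg fun A _ => sq_nonneg _
    have h4 : (((S.filter (fun A => 0 ≤ g A)).card : ℕ) : ℝ) ≤ S.card := by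
      exact_mod_cast card_filter_le _ _
    have h5 : P ^ 2 ≤ S.card * R := h3.trans (mul_le_mul_of_nonneg_right h4 hR0)
    have h6 : (S.card * V / 2) ^ 2 ≤ P ^ 2 := by
      apply pow_le_pow_left₀ (by positivity)
      linarith
    rcases hc.eq_or_lt with h7 | h7
    · rw [← h7, zero_mul]
      exact hR0
    · have h8 : (S.card : ℝ) * (S.card * (V / 2) ^ 2) ≤ S.card * R := by
        calc (S.card : ℝ) * (S.card * (V / 2) ^ 2) = (S.card * V / 2) ^ 2 := by ring
          _ ≤ _ := h6.trans h5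
      exact le_of_mul_le_mul_left h8 h7

/-- First moment about every centre, from a higher moment about every centre. -/
theorem first {ι : Type*} (S : Finset ι) (ψ : ι → ℝ) {D T r : ℝ} (hD : 0 < D) (hT : 0 ≤ T) (hr : 0 < r)
    (h0 : ∀ A ∈ S, 0 ≤ ψ A) (h1 : ∀ A ∈ S, ψ A ≤ D)
    (h : ∀ y : ℝ, S.card * T ^ (1 + r) ≤ ∑ A ∈ S, |ψ A - y| ^ (1 + r)) (z : ℝ) :
    S.card * (T * (T / D) ^ r) ≤ ∑ A ∈ S, |ψ A - z| := by
  have key : ∀ y : ℝ, 0 ≤ y → y ≤ D → S.card * (T * (T / D) ^ r) ≤ ∑ A ∈ S, |ψ A - y| := by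
    intro y hy0 hyD
    have hDr : 0 < D ^ r := Real.rpow_pos_of_pos hD r
    have h2 : ∑ A ∈ S, |ψ A - y| ^ (1 + r) ≤ D ^ r * ∑ A ∈ S, |ψ A - y| := by
      rw [mul_sum]
      refine sum_le_sum fun A hA => ?_
      have h3 : |ψ A - y| ≤ D := by
        rw [abs_le]
        constructor <;> linarith [h0 A hA, h1 A hA]
      rcases (abs_nonneg (ψ A - y)).eq_or_lt with h4 | h4
      · rw [← h4, Real.zero_rpow (by linarith), mul_zero]
      · rw [Real.rpow_add h4, Real.rpow_one, mul_comm]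
        exact mul_le_mul_of_nonneg_right (Real.rpow_le_rpow h4.le h3 hr.le) h4.le
    have h3 : T ^ (1 + r) = T * T ^ r := by
      rcases hT.eq_or_lt with h4 | h4
      · rw [← h4, Real.zero_rpow (by linarith), zero_mul]
      · rw [Real.rpow_add h4, Real.rpow_one]
    have h4 := (h y).trans h2
    rw [h3] at h4
    rw [Real.div_rpow hT hD.le]
    calc (S.card : ℝ) * (T * (T ^ r / D ^ r)) = (S.card * (T * T ^ r)) / D ^ r := by ring
      _ ≤ _ := by
          rw [div_le_iff₀ hDr, mul_comm _ (D ^ r)]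
          exact h4
  refine (key (max 0 (min z D)) (le_max_left _ _) (max_le hD.le (min_le_right _ _))).trans
    (sum_le_sum fun A hA => ?_)
  have ha := h0 A hA
  have hb := h1 A hA
  rcases le_total z 0 with h2 | h2
  · rw [min_eq_left (by linarith), max_eq_left h2, sub_zero, abs_of_nonneg ha]
    exact le_trans (by linarith) (le_abs_self _)
  · rcases le_total z D with h3 | h3
    · rw [min_eq_left h3, max_eq_right h2]
    · rw [min_eq_right h3, max_eq_right hD.le, abs_of_nonpos (by linarith)]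
      exact le_trans (by linarith) (neg_le_abs _)

/-- All together. -/
theorem both {ι : Type*} (S : Finset ι) (ψ : ι → ℝ) {D T r : ℝ} (hD : 0 < D) (hT : 0 ≤ T) (hr : 0 < r)
    (h0 : ∀ A ∈ S, 0 ≤ ψ A) (h1 : ∀ A ∈ S, ψ A ≤ D)
    (h : ∀ y : ℝ, S.card * T ^ (1 + r) ≤ ∑ A ∈ S, |ψ A - y| ^ (1 + r)) {V : ℝ} (hV : V = T * (T / D) ^ r) :
    (∀ z : ℝ, S.card * V ≤ ∑ A ∈ S, |ψ A - z|) ∧
    ∀ y : ℝ, S.card * y = ∑ A ∈ S, ψ A →
      S.card * (V / 4 / D) ≤ ((S.filter (fun A => y + V / 4 ≤ ψ A)).card : ℝ) ∧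
      S.card * (V / 4 / D) ≤ ((S.filter (fun A => ψ A ≤ y - V / 4)).card : ℝ) ∧
      S.card * (V / 2) ^ 2 ≤ ∑ A ∈ S.filter (fun A => y ≤ ψ A), (ψ A - y) ^ 2 ∧
      S.card * (V / 2) ^ 2 ≤ ∑ A ∈ S.filter (fun A => ψ A ≤ y), (ψ A - y) ^ 2 := by
  have hV0 : 0 ≤ V := by
    rw [hV]
    positivity
  have hf : ∀ z : ℝ, S.card * V ≤ ∑ A ∈ S, |ψ A - z| := fun z => by
    rw [hV]
    exact first S ψ hD hT hr h0 h1 h z
  refine ⟨hf, fun y hy => ?_⟩
  rcases S.eq_empty_or_nonempty with hS | hS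
  · subst hS
    simp
  have hc : (0 : ℝ) < S.card := by exact_mod_cast hS.card_pos
  have hy0 : 0 ≤ y := by
    have h2 : 0 ≤ ∑ A ∈ S, ψ A := sum_nonneg h0
    rw [← hy] at h2
    exact nonneg_of_mul_nonneg_right h2 hc
  have hyD : y ≤ D := by
    have h2 : ∑ A ∈ S, ψ A ≤ S.card * D := by
      rw [← nsmul_eq_mul]
      exact sum_le_card_nsmul _ _ _ h1
    rw [← hy] at h2
    exact le_of_mul_le_mul_left h2 hc
  have hs : ∑ A ∈ S, (ψ A - y) = 0 := by
    rw [sum_sub_distrib, sum_const, nsmul_eq_mul, hy, sub_self]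
  have hs' : ∑ A ∈ S, (y - ψ A) = 0 := by
    rw [sum_sub_distrib, sum_const, nsmul_eq_mul, hy, sub_self]
  obtain ⟨a1, a2⟩ := side S (fun A => ψ A - y) hD hV0 (fun A hA => by linarith [h1 A hA]) hs (hf y)
  obtain ⟨b1, b2⟩ := side S (fun A => y - ψ A) hD hV0 (fun A hA => by linarith [h0 A hA]) hs' (by
    refine (hf y).trans (le_of_eq (sum_congr rfl fun A _ => ?_))
    exact abs_sub_comm _ _)
  refine ⟨a1.trans (le_of_eq ?_), b1.trans (le_of_eq ?_), a2.trans (le_of_eq ?_), b2.trans (le_of_eq ?_)⟩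
  · congr 2
    refine filter_congr fun A _ => ?_
    constructor <;> intro h2 <;> linarith
  · congr 2
    refine filter_congr fun A _ => ?_
    constructor <;> intro h2 <;> linarith
  · refine sum_congr (filter_congr fun A _ => ?_) fun A _ => rfl
    constructor <;> intro h2 <;> linarith
  · refine sum_congr (filter_congr fun A _ => ?_) fun A _ => ?_
    · constructor <;> intro h2 <;> linarith
    · ring

end Pool.Agent.V1173.BS
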